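import Pool.Agent.Y790.TG.Fin
import Pool.Agent.Y790.TG.AlphZ

/-!
# For every `k` all but finitely many trees with at most `k` leaves are simply sequential

The trees with at most `k` leaves and sufficiently many vertices are graceful (`Pool.Agent.Y790.TG.allTreeG`,
the construction is described in `MP_5799c5_co/FewLeaves`), and graceful trees are simply sequential
(Bange, Barkauskas, Slater).
-/

set_option autoImplicit false

namespace Pool.Agent.Results.MP_8a819d_co.FewLeaves

/-- For every `k` there is `N` such that every finite tree `T` with at most `k` leaves (vertices of degree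
one) and at least `N` vertices has a simply sequential numbering: an injective map `F` of the vertices and
edges onto `{1, …, |V| + |E|}` such that every edge `u v` has the number `|F u - F v|`. -/
theorem result (k : ℕ) : ∃ N : ℕ, 2 ≤ N ∧ ∀ (V : Type) [Fintype V] (T : SimpleGraph V), T.IsTree →
    {x : V | (T.neighborSet x).ncard = 1}.ncard ≤ k → N ≤ Fintype.card V →
    ∃ F : V ⊕ T.edgeSet → ℕ, Function.Injective F ∧
      (∀ (e : T.edgeSet) (u v : V), e.val = s(u, v) →
        F (Sum.inr e) = ((F (Sum.inl u) : ℤ) - (F (Sum.inl v) : ℤ)).natAbs) ∧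
      Set.range F = Set.Icc 1 (Fintype.card V + Nat.card T.edgeSet) := by
  obtain ⟨N, hN⟩ := Pool.Agent.Y790.TG.allTreeG k
  exact ⟨max 2 N, le_max_left _ _, fun V _ T hT hk hV => Pool.Agent.Y790.TG.seq V T hT
    ((le_max_left _ _).trans hV) (hN V T hT hk ((le_max_right _ _).trans hV))⟩

end Pool.Agent.Results.MP_8a819d_co.FewLeaves
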